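import Mathlib

/-!
# De Morgan circuits and the negated facts they use

A de Morgan circuit consists of AND and OR gates; its inputs are variables and negated variables.
Every Boolean circuit can be brought into this form, its size is at most doubled. We count the
negated facts (this variable is false) that a circuit uses for accepting an input: the circuit
`AcceptsUsing x Q` if it still outputs 1 on `x` when all negated literals that do not belong to
variables in `Q` are replaced by 0.
-/

set_option autoImplicit false

namespace Pool.Agent.T9h16.Neg

/-- A wire of a circuit with variables in `ι`: a literal (`lit i true` is the variable `i`,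
`lit i false` is its negation), a constant, or the output of the gate with number `k`. -/
inductive Wire (ι : Type) : Type
  | lit (i : ι) (b : Bool) : Wire ι
  | const (b : Bool) : Wire ι
  | gate (k : ℕ) : Wire ι

/-- An AND gate (`isAnd = true`) or an OR gate (`isAnd = false`) with two input wires. -/
structure Gate (ι : Type) : Type where
  isAnd : Bool
  left : Wire ι
  right : Wire ι

/-- A de Morgan circuit: a list of AND and OR gates, in the order in which they are evaluated, and
an output wire. -/
structure Circuit (ι : Type) : Type where
  gates : List (Gate ι)
  output : Wire ι

variable {ι : Type}

/-- The value of a wire, given the values `v` of the literals and the list `vs` of the values of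
the gates evaluated so far (a gate that has not been evaluated yet counts as false). -/
def Wire.value (v : ι → Bool → Prop) (vs : List Prop) : Wire ι → Prop
  | .lit i b => v i b
  | .const b => b = true
  | .gate k => vs.getD k False

/-- The value of a gate, given the values `v` of the literals and those of the earlier gates. -/
def Gate.value (v : ι → Bool → Prop) (vs : List Prop) (g : Gate ι) : Prop :=
  if g.isAnd then g.left.value v vs ∧ g.right.value v vs
  else g.left.value v vs ∨ g.right.value v vs

/-- Evaluate the gates of a list one after the other, appending their values to `vs`. -/
def run (v : ι → Bool → Prop) : List (Gate ι) → List Prop → List Prop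
  | [], vs => vs
  | g :: gs, vs => run v gs (vs ++ [g.value v vs])

/-- The output of the circuit, given the values `v` of the literals. -/
def Circuit.eval (C : Circuit ι) (v : ι → Bool → Prop) : Prop :=
  C.output.value v (run v C.gates [])

/-- The number of gates of a circuit. -/
def Circuit.size (C : Circuit ι) : ℕ := C.gates.length

/-- The circuit accepts the input in which exactly the variables in `x` are true, using only the
negated facts in `Q`: the literal of the variable `i` has the value `i ∈ x`, the negated literal
has the value 1 only if `i ∉ x` and `i ∈ Q`. -/
def Circuit.AcceptsUsing (C : Circuit ι) (x Q : Set ι) : Prop :=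
  C.eval fun i b => if b then i ∈ x else i ∉ x ∧ i ∈ Q

/-- The circuit accepts the input in which exactly the variables in `x` are true. -/
def Circuit.Accepts (C : Circuit ι) (x : Set ι) : Prop := C.AcceptsUsing x Set.univ

/-- The input which describes `M` graphs `G 0, G 1, …` on the vertices `0, …, n - 1`: the variable
`(a, e)` tells whether `e` is an edge of the graph number `a`. -/
def input {M n : ℕ} (G : Fin M → SimpleGraph (Fin n)) : Set (Fin M × Sym2 (Fin n)) :=
  {p | p.2 ∈ (G p.1).edgeSet}

/-- The graph whose edges are all pairs of different elements of `S`. -/
def cliqueOn {n : ℕ} (S : Finset (Fin n)) : SimpleGraph (Fin n) where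
  Adj i j := i ≠ j ∧ i ∈ S ∧ j ∈ S
  symm := ⟨fun _ _ h => ⟨h.1.symm, h.2.2, h.2.1⟩⟩
  loopless := ⟨fun _ h => h.1 rfl⟩

end Pool.Agent.T9h16.Neg
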