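import Pool.Agent.T9h16.Neg.Sub

/-!
# Negated facts: the counting argument
-/

set_option autoImplicit false

namespace Pool.Agent.T9h16.Neg

open Finset Pool.Agent

theorem cliqueOn_le {n : ℕ} {S : Finset (Fin n)} {G : SimpleGraph (Fin n)}
    (hG : G.IsClique (S : Set (Fin n))) : cliqueOn S ≤ G := by
  intro i j h
  exact hG (by exact_mod_cast h.2.1) (by exact_mod_cast h.2.2) h.1

theorem edge_cliqueOn {n : ℕ} {S : Finset (Fin n)} {G : SimpleGraph (Fin n)}
    (hG : G.IsClique (S : Set (Fin n))) {e : Sym2 (Fin n)} (he : e ∈ (cliqueOn S).edgeSet) :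
    e ∈ G.edgeSet :=
  SimpleGraph.edgeSet_mono (cliqueOn_le hG) he

/-- the restricted circuit is sound -/
theorem win_sound {M n k : ℕ} (C : Circuit (Fin M × Sym2 (Fin n)))
    (hC : ∀ G : Fin M → SimpleGraph (Fin n), C.Accepts (input G) →
      ∀ a, ∃ c : Finset (Fin n), (G a).IsClique (c : Set (Fin n)) ∧ k ≤ c.card)
    (a : Fin M) (H : Fin M → SimpleGraph (Fin n)) (R : Set (Sym2 (Fin n)))
    (G : SimpleGraph (Fin n)) (h : (sub (win a H R) C).Accepts G) :
    ∃ c : Finset (Fin n), G.IsClique (c : Set (Fin n)) ∧ k ≤ c.card := by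
  classical
  rw [sub_accepts _ G (winV a H R G) (win_value a H R G)] at h
  have h1 : C.Accepts (input (Function.update H a (G.deleteEdges R))) := by
    refine Circuit.mono ?_ C h
    rintro ⟨b, e⟩ t ht
    unfold winV at ht
    by_cases hb : b = a
    · subst hb
      cases t with
      | true =>
        simp only [if_true] at ht ⊢
        show e ∈ ((Function.update H b (G.deleteEdges R)) b).edgeSet
        rw [Function.update_self, SimpleGraph.edgeSet_deleteEdges]
        exact ⟨ht.2, ht.1⟩
      | false =>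
        simp only [if_true, Bool.false_eq_true, if_false] at ht ⊢
        refine ⟨?_, Set.mem_univ _⟩
        show ¬ e ∈ ((Function.update H b (G.deleteEdges R)) b).edgeSet
        rw [Function.update_self, SimpleGraph.edgeSet_deleteEdges]
        exact fun h' => h'.2 ht
    · cases t with
      | true =>
        simp only [if_true, if_neg hb] at ht ⊢
        show e ∈ ((Function.update H a (G.deleteEdges R)) b).edgeSet
        rw [Function.update_of_ne hb]
        exact ht
      | false =>
        simp only [if_neg hb, Bool.false_eq_true, if_false] at ht ⊢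
        refine ⟨?_, Set.mem_univ _⟩
        show ¬ e ∈ ((Function.update H a (G.deleteEdges R)) b).edgeSet
        rw [Function.update_of_ne hb]
        exact ht
  obtain ⟨c, hc, hk⟩ := hC _ h1 a
  rw [Function.update_self] at hc
  exact ⟨c, hc.mono (SimpleGraph.deleteEdges_le R), hk⟩

/-- the other graphs in the restriction: complete graphs without the edges in `R`, or cliques -/
noncomputable def rest {M n : ℕ} (A : Finset (Fin M)) (R : Fin M → Set (Sym2 (Fin n)))
    (T : Fin M → Finset (Fin n)) (b : Fin M) : SimpleGraph (Fin n) :=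
  if b ∈ A then (⊤ : SimpleGraph (Fin n)).deleteEdges (R b) else cliqueOn (T b)

/-- the restricted circuit accepts all graphs in which `S a` is a clique -/
theorem win_found {M n : ℕ} (C : Circuit (Fin M × Sym2 (Fin n))) (A : Finset (Fin M)) (a : Fin M)
    (ha : a ∈ A) (S T : Fin M → Finset (Fin n)) (hT : ∀ b, b ∉ A → T b = S b)
    (Q : Set (Fin M × Sym2 (Fin n)))
    (h : C.AcceptsUsing (input fun b => cliqueOn (S b)) Q) (R : Fin M → Set (Sym2 (Fin n)))
    (hR : ∀ b ∈ A, ∀ e, e ∈ R b ↔ (b, e) ∈ Q ∧ e ∉ (cliqueOn (S b)).edgeSet)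
    (G : SimpleGraph (Fin n)) (hG : G.IsClique (S a : Set (Fin n))) :
    (sub (win a (rest A R T) (R a)) C).Accepts G := by
  classical
  rw [sub_accepts _ G (winV a _ (R a) G) (win_value a _ (R a) G)]
  refine Circuit.mono ?_ C h
  rintro ⟨b, e⟩ t ht
  unfold winV
  by_cases hb : b = a
  · subst hb
    cases t with
    | true =>
      simp only [if_true] at ht ⊢
      have h1 : e ∈ (cliqueOn (S b)).edgeSet := ht
      refine ⟨fun h2 => ?_, edge_cliqueOn hG h1⟩
      exact ((hR b ha e).1 h2).2 h1
    | false =>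
      simp only [if_true, Bool.false_eq_true, if_false] at ht ⊢
      exact (hR b ha e).2 ⟨ht.2, ht.1⟩
  · cases t with
    | true =>
      simp only [if_true, if_neg hb] at ht ⊢
      have h1 : e ∈ (cliqueOn (S b)).edgeSet := ht
      unfold rest
      split_ifs with hbA
      · rw [SimpleGraph.edgeSet_deleteEdges]
        refine ⟨SimpleGraph.edgeSet_mono le_top h1, fun h2 => ?_⟩
        exact ((hR b hbA e).1 h2).2 h1
      · rw [hT b hbA]
        exact h1
    | false =>
      simp only [if_neg hb, Bool.false_eq_true, if_false] at ht ⊢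
      unfold rest
      split_ifs with hbA
      · rw [SimpleGraph.edgeSet_deleteEdges]
        exact fun h2 => h2.2 ((hR b hbA e).2 ⟨ht.2, ht.1⟩)
      · rw [hT b hbA]
        exact ht.1

/-- the number of sets with at most `q` elements -/
theorem card_small (α : Type) [Fintype α] [DecidableEq α] (q : ℕ) :
    Fintype.card {R : Finset α // R.card ≤ q} ≤ (Fintype.card α + 1) ^ q := by
  classical
  have h1 : Fintype.card (Fin q → Option α) = (Fintype.card α + 1) ^ q := by
    rw [Fintype.card_fun, Fintype.card_option, Fintype.card_fin]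
  rw [← h1]
  refine Fintype.card_le_of_injective (fun R : {R : Finset α // R.card ≤ q} =>
    fun i : Fin q => if h : (i : ℕ) < R.1.card then
      some ((R.1.equivFin.symm ⟨i, h⟩ : R.1) : α) else none) ?_
  intro R R' hRR
  have key : ∀ R : {R : Finset α // R.card ≤ q}, ∀ x, x ∈ R.1 ↔ ∃ i : Fin q,
      (if h : (i : ℕ) < R.1.card then
        some ((R.1.equivFin.symm ⟨i, h⟩ : R.1) : α) else none) = some x := by
    intro R x
    constructor
    · intro hx
      have hlt := (R.1.equivFin ⟨x, hx⟩).2
      refine ⟨⟨(R.1.equivFin ⟨x, hx⟩ : Fin R.1.card), lt_of_lt_of_le hlt R.2⟩, ?_⟩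
      have : ((R.1.equivFin ⟨x, hx⟩ : Fin R.1.card) : ℕ) < R.1.card := hlt
      simp only [this, dif_pos]
      simp
    · rintro ⟨i, hi⟩
      split_ifs at hi with h
      · rw [Option.some.injEq] at hi
        rw [← hi]
        exact (R.1.equivFin.symm ⟨i, h⟩).2
  apply Subtype.ext
  ext x
  rw [key R x, key R' x]
  have h2 := fun i => congrFun hRR i
  simp only at h2
  constructor
  · rintro ⟨i, hi⟩
    exact ⟨i, by rw [← h2 i]; exact hi⟩
  · rintro ⟨i, hi⟩
    exact ⟨i, by rw [h2 i]; exact hi⟩

/-- counting functions `S` with `S a` in small sets for `a ∈ A`, which depend on the other values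
and on a parameter -/
theorem count {M n k : ℕ} (A : Finset (Fin M)) (B : ℝ) {P : Type} [Fintype P]
    (F : P → (Fin M → Finset (Fin n)) → Fin M → Finset (Finset (Fin n)))
    (hF : ∀ w T, ∀ a ∈ A, ((F w T a).card : ℝ) ≤ B) (X : Finset (Fin M → Finset (Fin n)))
    (hX : ∀ S ∈ X, (∀ b, (S b).card = k) ∧
      ∃ w, ∀ a ∈ A, S a ∈ F w (fun b => if b ∈ A then ∅ else S b) a) :
    (X.card : ℝ) ≤ ((n.choose k : ℕ) : ℝ) ^ (M - A.card) * (Fintype.card P * B ^ A.card) := by
  classical
  let V : Finset (Fin M → Finset (Fin n)) :=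
    Fintype.piFinset fun b => if b ∈ A then {∅} else powersetCard k univ
  have hV : V.card = n.choose k ^ (M - A.card) := by
    show (Fintype.piFinset _).card = _
    rw [Fintype.card_piFinset]
    have h1 : ∀ b : Fin M, (if b ∈ A then ({∅} : Finset (Finset (Fin n)))
        else powersetCard k univ).card = if b ∈ A then 1 else n.choose k := by
      intro b
      split_ifs
      · simp
      · rw [card_powersetCard, card_univ, Fintype.card_fin]
    simp only [h1]
    rw [prod_ite, prod_const_one, one_mul, prod_const]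
    congr 1
    have h2 : (univ.filter fun b : Fin M => ¬ b ∈ A) = Aᶜ := by
      ext b
      simp
    rw [h2, card_compl, Fintype.card_fin]
  let Z : (Fin M → Finset (Fin n)) → P → Finset (Fin M → Finset (Fin n)) := fun T w =>
    Fintype.piFinset fun b => if b ∈ A then F w T b else {T b}
  have hZ : ∀ T w, ((Z T w).card : ℝ) ≤ B ^ A.card := by
    intro T w
    have h0 : (Z T w).card = ∏ b ∈ A, (F w T b).card := by
      show (Fintype.piFinset _).card = _
      rw [Fintype.card_piFinset]
      have h1 : ∀ b : Fin M, (if b ∈ A then F w T b else {T b}).card =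
          if b ∈ A then (F w T b).card else 1 := by
        intro b
        split_ifs
        · rfl
        · simp
      simp only [h1]
      rw [prod_ite, prod_const_one, mul_one]
      congr 1
      ext b
      simp
    rw [h0]
    push_cast
    rw [← prod_const]
    exact prod_le_prod (fun _ _ => Nat.cast_nonneg _) fun a ha => hF w T a ha
  have hsub : X ⊆ V.biUnion fun T => (univ : Finset P).biUnion fun w => Z T w := by
    intro S hS
    obtain ⟨h1, w, h2⟩ := hX S hS
    rw [mem_biUnion]
    refine ⟨fun b => if b ∈ A then ∅ else S b, ?_, ?_⟩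
    · show _ ∈ Fintype.piFinset _
      rw [Fintype.mem_piFinset]
      intro b
      by_cases hb : b ∈ A
      · simp [hb]
      · simp only [if_neg hb, mem_powersetCard]
        exact ⟨subset_univ _, h1 b⟩
    · rw [mem_biUnion]
      refine ⟨w, mem_univ _, ?_⟩
      show _ ∈ Fintype.piFinset _
      rw [Fintype.mem_piFinset]
      intro b
      by_cases hb : b ∈ A
      · rw [if_pos hb]
        exact h2 b hb
      · simp [hb]
  calc (X.card : ℝ) ≤ ((∑ T ∈ V, ∑ w : P, (Z T w).card : ℕ) : ℝ) := by
        refine Nat.cast_le.2 ((card_le_card hsub).trans (card_biUnion_le.trans ?_))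
        exact sum_le_sum fun T _ => card_biUnion_le
    _ = ∑ T ∈ V, ∑ w : P, ((Z T w).card : ℝ) := by push_cast; rfl
    _ ≤ ∑ _T ∈ V, ∑ _w : P, B ^ A.card := sum_le_sum fun T _ => sum_le_sum fun w _ => hZ T w
    _ = ((n.choose k : ℕ) : ℝ) ^ (M - A.card) * (Fintype.card P * B ^ A.card) := by
        rw [sum_const, sum_const, nsmul_eq_mul, nsmul_eq_mul, hV, card_univ]
        push_cast
        rfl

open Classical in
theorem main (ε : ℝ) (hε : 0 < ε) :
    ∃ K : ℕ, 0 < K ∧ ∀ (U : Type) [Fintype U] (M n k e m q : ℕ)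
      (D : U → Circuit (Fin M × Sym2 (Fin n))),
      0 < e → K * e ≤ k → (K * e) ^ K ≤ n / k →
      (∀ u, (D u).size ≤ (n / k) ^ e) →
      (∀ u (G : Fin M → SimpleGraph (Fin n)), (D u).Accepts (input G) →
        ∀ a, ∃ c : Finset (Fin n), (G a).IsClique (c : Set (Fin n)) ∧ k ≤ c.card) →
      ({S : Fin M → Finset (Fin n) | (∀ a, (S a).card = k) ∧
        ∃ u, ∃ Q : Finset (Fin M × Sym2 (Fin n)),
          (D u).AcceptsUsing (input fun a => cliqueOn (S a)) (Q : Set (Fin M × Sym2 (Fin n))) ∧
          m ≤ {a | (Q.filter fun p => p.1 = a).card ≤ q}.ncard}.ncard : ℝ) ≤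
        (Fintype.card U : ℝ) * (M.choose m : ℝ) * ((n : ℝ) ^ 2) ^ (q * m) *
          ((n.choose k : ℕ) : ℝ) ^ ((M : ℝ) - m + ε * m) := by
  obtain ⟨K, hK0, hK⟩ := T9h35.Sharp.main_sharp ε hε
  refine ⟨K + 1, Nat.succ_pos _, ?_⟩
  intro U _ M n k e m q D he hek hew hD hcl
  have hek' : K * e ≤ k := le_trans (Nat.mul_le_mul_right e (Nat.le_succ K)) hek
  have hew' : (K * e) ^ K ≤ n / k := by
    refine le_trans ?_ hew
    calc (K * e) ^ K ≤ ((K + 1) * e) ^ K :=
          Nat.pow_le_pow_left (Nat.mul_le_mul_right e (Nat.le_succ K)) K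
      _ ≤ ((K + 1) * e) ^ (K + 1) :=
          Nat.pow_le_pow_right (Nat.mul_pos (Nat.succ_pos K) he) (Nat.le_succ K)
  have hk2 : 2 ≤ k := by
    have : 2 * 1 ≤ (K + 1) * e := Nat.mul_le_mul (by omega) he
    omega
  have hW : 1 ≤ n / k := by
    refine le_trans ?_ hew
    exact Nat.pow_pos (Nat.mul_pos (Nat.succ_pos K) he)
  have hkn : k ≤ n := by
    by_contra hcon
    rw [Nat.div_eq_of_lt (by omega)] at hW
    omega
  have hn2 : 2 ≤ n := by omega
  have hN0 : (0 : ℝ) < ((n.choose k : ℕ) : ℝ) := by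
    exact_mod_cast Nat.choose_pos hkn
  -- the number of sets of facts in one graph
  let RR := {R : Finset (Sym2 (Fin n)) // R.card ≤ q}
  have hRR : (Fintype.card RR : ℝ) ≤ ((n : ℝ) ^ 2) ^ q := by
    have h1 := card_small (Sym2 (Fin n)) q
    have h2 : Fintype.card (Sym2 (Fin n)) + 1 ≤ n ^ 2 := by
      rw [Sym2.card, Fintype.card_fin, Nat.choose_two_right]
      have h3 : (n + 1) * (n + 1 - 1) / 2 ≤ n ^ 2 - 1 := by
        have h4 : (n + 1) * (n + 1 - 1) ≤ (n ^ 2 - 1) * 2 := by
          obtain ⟨m, rfl⟩ : ∃ m, n = m + 2 := ⟨n - 2, by omega⟩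
          have h5 : (m + 2) ^ 2 - 1 = m ^ 2 + 4 * m + 3 := by
            have : (m + 2) ^ 2 = m ^ 2 + 4 * m + 3 + 1 := by ring
            rw [this]; rfl
          rw [h5]
          have h6 : m + 2 + 1 - 1 = m + 2 := by omega
          rw [h6]
          nlinarith
        exact Nat.div_le_of_le_mul (by omega)
      have h7 : 1 ≤ n ^ 2 := Nat.one_le_pow _ _ (by omega)
      omega
    have h3 : Fintype.card RR ≤ (n ^ 2) ^ q := h1.trans (Nat.pow_le_pow_left h2 q)
    exact_mod_cast h3
  set B : ℝ := ((n.choose k : ℕ) : ℝ) ^ ε with hBdef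
  have hB0 : (0 : ℝ) ≤ B := Real.rpow_nonneg (Nat.cast_nonneg _) _
  -- the sets found in the graph `a`
  let F : Finset (Fin M) → U → (Fin M → RR) → (Fin M → Finset (Fin n)) → Fin M →
      Finset (Finset (Fin n)) := fun A u w T a =>
    univ.filter fun Y : Finset (Fin n) => Y.card = k ∧
      ∀ G : SimpleGraph (Fin n), G.IsClique (Y : Set (Fin n)) →
        (sub (win a (rest A (fun b => ((w b).1 : Set (Sym2 (Fin n)))) T)
          ((w a).1 : Set (Sym2 (Fin n)))) (D u)).Accepts G
  have hF : ∀ A u w T a, ((F A u w T a).card : ℝ) ≤ B := by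
    intro A u w T a
    have h1 := hK Unit n k e
      (fun _ => sub (win a (rest A (fun b => ((w b).1 : Set (Sym2 (Fin n)))) T)
          ((w a).1 : Set (Sym2 (Fin n)))) (D u))
      he hek' hew' (fun _ => by rw [sub_size]; exact hD u)
      (fun _ G h => win_sound (D u) (hcl u) a _ _ G h)
    have h2 : (F A u w T a : Set (Finset (Fin n))) = {S : Finset (Fin n) | S.card = k ∧
        ∃ _w : Unit, ∀ G : SimpleGraph (Fin n), G.IsClique (S : Set (Fin n)) →
        (sub (win a (rest A (fun b => ((w b).1 : Set (Sym2 (Fin n)))) T)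
          ((w a).1 : Set (Sym2 (Fin n)))) (D u)).Accepts G} := by
      ext Y
      simp [F]
    rw [← h2, Set.ncard_coe_finset] at h1
    simpa using h1
  -- the found tuples with few facts in the graphs in `A`
  let ext0 : (A : Finset (Fin M)) → (A → RR) → Fin M → RR := fun A w b =>
    if h : b ∈ A then w ⟨b, h⟩ else ⟨∅, Nat.zero_le _⟩
  let X : Finset (Fin M) → U → Finset (Fin M → Finset (Fin n)) := fun A u =>
    univ.filter fun S => (∀ b, (S b).card = k) ∧
      ∃ w : A → RR, ∀ a ∈ A, S a ∈ F A u (ext0 A w) (fun b => if b ∈ A then ∅ else S b) a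
  have hX : ∀ A u, A.card = m → ((X A u).card : ℝ) ≤
      ((n.choose k : ℕ) : ℝ) ^ (M - m) * ((((n : ℝ) ^ 2) ^ (q * m)) * B ^ m) := by
    intro A u hA
    have h1 := count (k := k) A B (P := A → RR) (fun w T a => F A u (ext0 A w) T a)
      (fun w T a _ => hF A u _ T a) (X A u) (fun S hS => (mem_filter.1 hS).2)
    rw [hA, Fintype.card_fun, Fintype.card_coe, hA] at h1
    refine h1.trans ?_
    refine mul_le_mul_of_nonneg_left ?_ (by positivity)
    refine mul_le_mul_of_nonneg_right ?_ (by positivity)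
    push_cast
    rw [pow_mul]
    exact pow_le_pow_left₀ (Nat.cast_nonneg _) hRR m
  have hsub : {S : Fin M → Finset (Fin n) | (∀ a, (S a).card = k) ∧
        ∃ u, ∃ Q : Finset (Fin M × Sym2 (Fin n)),
          (D u).AcceptsUsing (input fun a => cliqueOn (S a)) (Q : Set (Fin M × Sym2 (Fin n))) ∧
          m ≤ {a | (Q.filter fun p => p.1 = a).card ≤ q}.ncard} ⊆
      (((univ : Finset U).biUnion fun u => (powersetCard m (univ : Finset (Fin M))).biUnion
        fun A => X A u : Finset _) : Set (Fin M → Finset (Fin n))) := by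
    rintro S ⟨hS, u, Q, hQ, hm⟩
    have hm' : m ≤ (univ.filter fun a : Fin M => (Q.filter fun p => p.1 = a).card ≤ q).card := by
      rw [← Set.ncard_coe_finset]
      refine hm.trans (le_of_eq ?_)
      congr 1
      ext a
      simp
    obtain ⟨A, hA, hAm⟩ := exists_subset_card_eq hm'
    rw [mem_coe, mem_biUnion]
    refine ⟨u, mem_univ _, ?_⟩
    rw [mem_biUnion]
    refine ⟨A, mem_powersetCard.2 ⟨subset_univ _, hAm⟩, ?_⟩
    rw [mem_filter]
    refine ⟨mem_univ _, hS, ?_⟩
    let R : Fin M → Finset (Sym2 (Fin n)) := fun b => univ.filter fun e =>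
      (b, e) ∈ Q ∧ e ∉ (cliqueOn (S b)).edgeSet
    have hR : ∀ b ∈ A, (R b).card ≤ q := by
      intro b hb
      refine le_trans ?_ (mem_filter.1 (hA hb)).2
      refine card_le_card_of_injOn (fun e => (b, e)) ?_ ?_
      · intro e he'
        rw [mem_coe, mem_filter] at he'
        rw [mem_coe, mem_filter]
        exact ⟨he'.2.1, rfl⟩
      · intro e _ e' _ h
        exact (Prod.mk.inj h).2
    refine ⟨fun b => ⟨R b.1, hR b.1 b.2⟩, fun a ha => ?_⟩
    rw [mem_filter]
    refine ⟨mem_univ _, hS a, fun G hG => ?_⟩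
    refine win_found (D u) A a ha S _ ?_ (Q : Set _) hQ _ ?_ G hG
    · intro b hb
      simp [hb]
    · intro b hb e
      simp [ext0, hb, R]
  have h3 := Set.ncard_le_ncard hsub (Finset.finite_toSet _)
  rw [Set.ncard_coe_finset] at h3
  have h4 : ((((univ : Finset U).biUnion fun u => (powersetCard m (univ : Finset (Fin M))).biUnion
        fun A => X A u).card : ℕ) : ℝ) ≤
      ∑ u : U, ∑ A ∈ powersetCard m (univ : Finset (Fin M)), ((X A u).card : ℝ) := by
    have h5 : (((univ : Finset U).biUnion fun u => (powersetCard m (univ : Finset (Fin M))).biUnion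
        fun A => X A u).card) ≤ ∑ u : U, ∑ A ∈ powersetCard m (univ : Finset (Fin M)),
          (X A u).card :=
      card_biUnion_le.trans (sum_le_sum fun u _ => card_biUnion_le)
    exact_mod_cast h5
  by_cases hmM : m ≤ M
  · calc _ ≤ ((((univ : Finset U).biUnion fun u =>
          (powersetCard m (univ : Finset (Fin M))).biUnion fun A => X A u).card : ℕ) : ℝ) := by
          exact_mod_cast h3
      _ ≤ ∑ u : U, ∑ A ∈ powersetCard m (univ : Finset (Fin M)), ((X A u).card : ℝ) := h4
      _ ≤ ∑ _u : U, ∑ _A ∈ powersetCard m (univ : Finset (Fin M)),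
          ((n.choose k : ℕ) : ℝ) ^ (M - m) * ((((n : ℝ) ^ 2) ^ (q * m)) * B ^ m) :=
          sum_le_sum fun u _ => sum_le_sum fun A hA => hX A u (mem_powersetCard.1 hA).2
      _ = (Fintype.card U : ℝ) * (M.choose m : ℝ) * ((n : ℝ) ^ 2) ^ (q * m) *
          (((n.choose k : ℕ) : ℝ) ^ (M - m) * B ^ m) := by
          rw [sum_const, sum_const, card_powersetCard, card_univ, card_univ, Fintype.card_fin,
            nsmul_eq_mul, nsmul_eq_mul]
          ring
      _ = (Fintype.card U : ℝ) * (M.choose m : ℝ) * ((n : ℝ) ^ 2) ^ (q * m) *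
          ((n.choose k : ℕ) : ℝ) ^ ((M : ℝ) - m + ε * m) := by
          congr 1
          rw [Real.rpow_add hN0, hBdef, ← Real.rpow_natCast, Nat.cast_sub hmM,
            ← Real.rpow_natCast, ← Real.rpow_mul hN0.le]
  · have h6 : powersetCard m (univ : Finset (Fin M)) = ∅ := by
      rw [powersetCard_eq_empty, card_univ, Fintype.card_fin]
      omega
    rw [Nat.choose_eq_zero_of_lt (by omega : M < m)]
    have h7 : ∑ u : U, ∑ A ∈ powersetCard m (univ : Finset (Fin M)), ((X A u).card : ℝ) = 0 := by
      rw [h6]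
      simp
    rw [h7] at h4
    have h8 := (Nat.cast_le (α := ℝ)).2 h3
    refine (h8.trans h4).trans (le_of_eq ?_)
    simp

end Pool.Agent.T9h16.Neg
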