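import Pool.Agent.T9h16.Neg.Defs
import Pool.Agent.T9h35.Sharp.Main

/-!
# Restriction of a de Morgan circuit to one of the graphs
-/

set_option autoImplicit false

namespace Pool.Agent.T9h16.Neg

open Pool.Agent

variable {ι : Type}

/-- pointwise implication of two lists of propositions -/
def Le (vs ws : List Prop) : Prop := List.Forall₂ (fun p q : Prop => p → q) vs ws

theorem Le.getD {vs ws : List Prop} (h : Le vs ws) (k : ℕ) :
    vs.getD k False → ws.getD k False := by
  induction h generalizing k with
  | nil => simp
  | cons h0 _ ih =>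
    cases k with
    | zero => simpa using h0
    | succ k => simpa using ih k

theorem Wire.mono {v w : ι → Bool → Prop} (hvw : ∀ i b, v i b → w i b) {vs ws : List Prop}
    (h : Le vs ws) (a : Wire ι) : a.value v vs → a.value w ws := by
  cases a with
  | lit i b => exact hvw i b
  | const b => exact id
  | gate k => exact h.getD k

theorem Gate.mono {v w : ι → Bool → Prop} (hvw : ∀ i b, v i b → w i b) {vs ws : List Prop}
    (h : Le vs ws) (g : Gate ι) : g.value v vs → g.value w ws := by
  unfold Gate.value
  have h1 := Wire.mono hvw h g.left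
  have h2 := Wire.mono hvw h g.right
  split_ifs
  · exact fun h3 => ⟨h1 h3.1, h2 h3.2⟩
  · exact fun h3 => h3.imp h1 h2

theorem run_mono {v w : ι → Bool → Prop} (hvw : ∀ i b, v i b → w i b) (gs : List (Gate ι))
    {vs ws : List Prop} (h : Le vs ws) : Le (run v gs vs) (run w gs ws) := by
  induction gs generalizing vs ws with
  | nil => exact h
  | cons g gs ih =>
    refine ih ?_
    refine List.rel_append h ?_
    exact List.Forall₂.cons (Gate.mono hvw h g) List.Forall₂.nil

theorem Circuit.mono {v w : ι → Bool → Prop} (hvw : ∀ i b, v i b → w i b) (C : Circuit ι) :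
    C.eval v → C.eval w :=
  Wire.mono hvw (run_mono hvw C.gates List.Forall₂.nil) C.output

open Classical in
/-- substitution: the literals become edge variables or constants -/
noncomputable def subW {n : ℕ} (σ : ι → Bool → T9h35.Wire n) : Wire ι → T9h35.Wire n
  | .lit i b => σ i b
  | .const b => .const b
  | .gate k => .gate k

noncomputable def subG {n : ℕ} (σ : ι → Bool → T9h35.Wire n) (g : Gate ι) : T9h35.Gate n :=
  ⟨g.isAnd, subW σ g.left, subW σ g.right⟩

noncomputable def sub {n : ℕ} (σ : ι → Bool → T9h35.Wire n) (C : Circuit ι) :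
    T9h35.MonoCircuit n :=
  ⟨C.gates.map (subG σ), subW σ C.output⟩

theorem subW_value {n : ℕ} (σ : ι → Bool → T9h35.Wire n) (G : SimpleGraph (Fin n))
    (v : ι → Bool → Prop) (hσ : ∀ i b vs, (σ i b).value G vs ↔ v i b) (vs : List Prop)
    (a : Wire ι) : (subW σ a).value G vs ↔ a.value v vs := by
  cases a with
  | lit i b => exact hσ i b vs
  | const b => exact Iff.rfl
  | gate k => exact Iff.rfl

theorem subG_value {n : ℕ} (σ : ι → Bool → T9h35.Wire n) (G : SimpleGraph (Fin n))
    (v : ι → Bool → Prop) (hσ : ∀ i b vs, (σ i b).value G vs ↔ v i b) (vs : List Prop)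
    (g : Gate ι) : (subG σ g).value G vs ↔ g.value v vs := by
  unfold T9h35.Gate.value Gate.value
  have h1 := subW_value σ G v hσ vs g.left
  have h2 := subW_value σ G v hσ vs g.right
  show (if g.isAnd = true then (subW σ g.left).value G vs ∧ (subW σ g.right).value G vs
    else (subW σ g.left).value G vs ∨ (subW σ g.right).value G vs) ↔ _
  rw [propext h1, propext h2]

theorem sub_run {n : ℕ} (σ : ι → Bool → T9h35.Wire n) (G : SimpleGraph (Fin n))
    (v : ι → Bool → Prop) (hσ : ∀ i b vs, (σ i b).value G vs ↔ v i b) (gs : List (Gate ι))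
    (vs : List Prop) : T9h35.run G (gs.map (subG σ)) vs = run v gs vs := by
  induction gs generalizing vs with
  | nil => rfl
  | cons g gs ih =>
    show T9h35.run G (gs.map (subG σ)) (vs ++ [(subG σ g).value G vs]) =
      run v gs (vs ++ [g.value v vs])
    rw [propext (subG_value σ G v hσ vs g)]
    exact ih _

theorem sub_accepts {n : ℕ} (σ : ι → Bool → T9h35.Wire n) (G : SimpleGraph (Fin n))
    (v : ι → Bool → Prop) (hσ : ∀ i b vs, (σ i b).value G vs ↔ v i b) (C : Circuit ι) :
    (sub σ C).Accepts G ↔ C.eval v := by
  unfold T9h35.MonoCircuit.Accepts Circuit.eval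
  show (subW σ C.output).value G (T9h35.run G (C.gates.map (subG σ)) []) ↔ _
  rw [sub_run σ G v hσ]
  exact subW_value σ G v hσ _ _

theorem sub_size {n : ℕ} (σ : ι → Bool → T9h35.Wire n) (C : Circuit ι) :
    (sub σ C).size = C.size := by
  simp [sub, T9h35.MonoCircuit.size, Circuit.size]

/-- the literals of the graphs other than `a` are replaced by their values on `H`, those of the
graph `a` by edge variables or, if they are in `R`, by constants -/
noncomputable def win {M n : ℕ} (a : Fin M) (H : Fin M → SimpleGraph (Fin n))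
    (R : Set (Sym2 (Fin n))) : (Fin M × Sym2 (Fin n)) → Bool → T9h35.Wire n := by
  classical
  exact fun p b =>
    if p.1 = a then
      (if b = true then (if p.2 ∈ R then .const false else .edge p.2.out.1 p.2.out.2)
        else .const (decide (p.2 ∈ R)))
    else (if b = true then .const (decide (p.2 ∈ (H p.1).edgeSet))
      else .const (decide (p.2 ∉ (H p.1).edgeSet)))

/-- the values of the literals after this substitution -/
def winV {M n : ℕ} (a : Fin M) (H : Fin M → SimpleGraph (Fin n))
    (R : Set (Sym2 (Fin n))) (G : SimpleGraph (Fin n)) (p : Fin M × Sym2 (Fin n)) (b : Bool) :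
    Prop :=
  if p.1 = a then (if b = true then p.2 ∉ R ∧ p.2 ∈ G.edgeSet else p.2 ∈ R)
  else (if b = true then p.2 ∈ (H p.1).edgeSet else p.2 ∉ (H p.1).edgeSet)

theorem win_value {M n : ℕ} (a : Fin M) (H : Fin M → SimpleGraph (Fin n))
    (R : Set (Sym2 (Fin n))) (G : SimpleGraph (Fin n)) (p : Fin M × Sym2 (Fin n)) (b : Bool)
    (vs : List Prop) : (win a H R p b).value G vs ↔ winV a H R G p b := by
  classical
  have hadj : ∀ e : Sym2 (Fin n), G.Adj e.out.1 e.out.2 ↔ e ∈ G.edgeSet := by
    intro e
    rw [← SimpleGraph.mem_edgeSet]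
    have h : s(e.out.1, e.out.2) = e := Quot.out_eq e
    rw [h]
  unfold win winV
  by_cases h1 : p.1 = a
  · simp only [h1, if_true]
    cases b with
    | true =>
      by_cases h2 : p.2 ∈ R
      · simp [h2, T9h35.Wire.value]
      · simp only [h2, if_true, if_false, not_false_eq_true, true_and]
        exact hadj p.2
    | false => simp [T9h35.Wire.value]
  · simp only [h1, if_false]
    cases b with
    | true => simp [T9h35.Wire.value]
    | false => simp [T9h35.Wire.value]

end Pool.Agent.T9h16.Neg
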